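import Pool.Agent.Helper13.M.Defs
import Pool.Agent.Helper13.HG.Pla
import Pool.Agent.Helper45.HG.Unram
import Pool.Agent.Helper45.HG.Ratio
import Pool.Agent.Helper45.HG.Sel
import Pool.Agent.Helper79.L.FR

/-!
# Project M, block HF: finitely many quadratic characters are unramified outside a finite set
-/

set_option autoImplicit false

namespace Pool.Agent.M

open VC IntermediateField NumberField IsDedekindDomain Pool.Agent.SC Pool.Agent.L
open Pool.Agent.HG (Pr nm IsOdd Ctx Gd Ev Od StmtSel StmtMert StmtSplit StmtDer StmtBTL)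

namespace HFaux

section

variable {k E : Type} [Field k] [Field E] [Algebra k E]

/-- a continuous quadratic character of the group of `L` is given by a square root -/
theorem exists_sqrt [CharZero k] [IsAlgClosed E] [Algebra.IsAlgebraic k E]
    (L : IntermediateField k E) [FiniteDimensional k L] (χ : L.fixingSubgroup →* ℤˣ)
    (L' : IntermediateField k E) [FiniteDimensional k L']
    (hL' : ∀ g : L.fixingSubgroup, (∀ x ∈ L', (g : E ≃ₐ[k] E) x = x) → χ g = 1) :
    ∃ (z : L) (w : E), z ≠ 0 ∧ w ≠ 0 ∧ w ^ 2 = (z : E) ∧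
      ∀ g : L.fixingSubgroup, (g : E ≃ₐ[k] E) w = ((χ g : ℤ) : E) * w := by
  have hclo : IsAlgClosure k E := ⟨inferInstance, inferInstance⟩
  have hnor : Normal k E := IsAlgClosure.normal k E
  have hgal : IsGalois k E := ⟨⟩
  by_cases htr : ∀ g, χ g = 1
  · refine ⟨1, 1, one_ne_zero, one_ne_zero, by simp, fun g => ?_⟩
    rw [htr g, map_one]
    simp
  push Not at htr
  obtain ⟨g₀, hg₀⟩ := htr
  have hg₀' : χ g₀ = -1 := (Int.units_eq_one_or _).resolve_left hg₀
  -- the kernel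
  let H : Subgroup (E ≃ₐ[k] E) := χ.ker.map L.fixingSubgroup.subtype
  have hmem : ∀ g : L.fixingSubgroup, (g : E ≃ₐ[k] E) ∈ H ↔ χ g = 1 := by
    intro g
    constructor
    · rintro ⟨g', hg', h⟩
      have : g' = g := Subtype.ext h
      rw [← this]
      exact hg'
    · intro h
      exact ⟨g, h, rfl⟩
  have hHL : ∀ g ∈ H, g ∈ L.fixingSubgroup := by
    rintro _ ⟨g', -, rfl⟩
    exact g'.2
  have hopen : IsOpen (H : Set (E ≃ₐ[k] E)) := by
    have h1 : (L ⊔ L').fixingSubgroup ≤ H := by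
      intro g hg
      have hgL : g ∈ L.fixingSubgroup := IntermediateField.fixingSubgroup_antitone le_sup_left hg
      refine (hmem ⟨g, hgL⟩).2 (hL' ⟨g, hgL⟩ fun x hx => ?_)
      exact hg ⟨x, (le_sup_right : L' ≤ L ⊔ L') hx⟩
    exact Subgroup.isOpen_mono h1 (IntermediateField.fixingSubgroup_isOpen _)
  have hclosed : IsClosed (H : Set (E ≃ₐ[k] E)) := OpenSubgroup.isClosed ⟨H, hopen⟩
  have hfix := InfiniteGalois.fixingSubgroup_fixedField (k := k) (K := E) ⟨H, hclosed⟩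
  have hg₀H : (g₀ : E ≃ₐ[k] E) ∉ (IntermediateField.fixedField H).fixingSubgroup := by
    intro h
    rw [show (IntermediateField.fixedField H).fixingSubgroup = H from hfix] at h
    rw [hmem, hg₀'] at h
    exact absurd h (by decide)
  obtain ⟨x, hx, hgx⟩ : ∃ x : E, (∀ g ∈ H, g x = x) ∧ (g₀ : E ≃ₐ[k] E) x ≠ x := by
    by_contra hcon
    push Not at hcon
    apply hg₀H
    rintro ⟨x, hx⟩
    exact hcon x fun g hg => hx ⟨g, hg⟩
  have hx1 : ∀ g : L.fixingSubgroup, χ g = 1 → (g : E ≃ₐ[k] E) x = x := fun g hg =>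
    hx _ ((hmem g).2 hg)
  -- the square root
  set w : E := x - (g₀ : E ≃ₐ[k] E) x with hw
  have hw0 : w ≠ 0 := fun h => hgx (sub_eq_zero.1 h).symm
  have hgw : ∀ g : L.fixingSubgroup, (g : E ≃ₐ[k] E) w = ((χ g : ℤ) : E) * w := by
    intro g
    rcases Int.units_eq_one_or (χ g) with h | h
    · have h1 := hx1 (g₀⁻¹ * g * g₀) (by rw [map_mul, map_mul, map_inv, h, hg₀']; decide)
      have h2 : (g : E ≃ₐ[k] E) ((g₀ : E ≃ₐ[k] E) x) = (g₀ : E ≃ₐ[k] E) x := by
        have h3 := congrArg (g₀ : E ≃ₐ[k] E) h1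
        simp only [Subgroup.coe_mul, AlgEquiv.mul_apply, InvMemClass.coe_inv] at h3
        rw [← AlgEquiv.mul_apply, mul_inv_cancel] at h3
        exact h3
      rw [h, hw, map_sub, h2, hx1 g h]
      simp
    · have h1 := hx1 (g₀⁻¹ * g) (by rw [map_mul, map_inv, h, hg₀']; decide)
      have h2 : (g : E ≃ₐ[k] E) x = (g₀ : E ≃ₐ[k] E) x := by
        have h3 := congrArg (g₀ : E ≃ₐ[k] E) h1
        simp only [Subgroup.coe_mul, AlgEquiv.mul_apply, InvMemClass.coe_inv] at h3
        rw [← AlgEquiv.mul_apply, mul_inv_cancel] at h3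
        exact h3
      have h4 := hx1 (g * g₀) (by rw [map_mul, h, hg₀']; decide)
      have h5 : (g : E ≃ₐ[k] E) ((g₀ : E ≃ₐ[k] E) x) = x := h4
      rw [h, hw, map_sub, h2, h5]
      simp
  -- it is in `L`
  have hwL : w ^ 2 ∈ L := by
    have h1 : w ^ 2 ∈ IntermediateField.fixedField L.fixingSubgroup := by
      rintro ⟨g, hg⟩
      change g (w ^ 2) = w ^ 2
      have h2 := hgw ⟨g, hg⟩
      change g w = _ at h2
      rw [map_pow, h2, mul_pow]
      rcases Int.units_eq_one_or (χ ⟨g, hg⟩) with h | h <;> rw [h] <;> simp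
    rwa [InfiniteGalois.fixedField_fixingSubgroup] at h1
  refine ⟨⟨w ^ 2, hwL⟩, w, ?_, hw0, rfl, hgw⟩
  intro h
  exact pow_ne_zero 2 hw0 (congrArg Subtype.val h)

/-- the class of `z` determines the character -/
theorem unique_char [CharZero k] (L : IntermediateField k E) {χ χ' : L.fixingSubgroup →* ℤˣ}
    {e w w' : E} (hw0 : w ≠ 0) (hw : w ^ 2 = e) (hw' : w' ^ 2 = e)
    (h : ∀ g : L.fixingSubgroup, (g : E ≃ₐ[k] E) w = ((χ g : ℤ) : E) * w)
    (h' : ∀ g : L.fixingSubgroup, (g : E ≃ₐ[k] E) w' = ((χ' g : ℤ) : E) * w') : χ = χ' := by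
  have hcz : CharZero E := charZero_of_injective_algebraMap (algebraMap k E).injective
  have h1 : ∀ g : L.fixingSubgroup, (g : E ≃ₐ[k] E) w = ((χ' g : ℤ) : E) * w := by
    rcases sq_eq_sq_iff_eq_or_eq_neg.1 (hw'.trans hw.symm) with h2 | h2
    · rw [← h2]
      exact h'
    · intro g
      have h3 := h' g
      rw [h2, map_neg, mul_neg, neg_inj] at h3
      exact h3
  ext g
  have h2 := (h g).symm.trans (h1 g)
  have h3 := mul_right_cancel₀ hw0 h2
  exact_mod_cast h3

end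

section

variable {k E : Type} [Field k] [NumberField k] [Field E] [IsAlgClosed E] [Algebra k E]
  [Algebra.IsAlgebraic k E]

theorem ev_of_unram (L : IntermediateField k E) [NumberField L] (χ : L.fixingSubgroup →* ℤˣ)
    {z : L} {w : E} (hw0 : w ≠ 0) (hz : z ≠ 0) (hw : w ^ 2 = (z : E))
    (hg : ∀ g : L.fixingSubgroup, (g : E ≃ₐ[k] E) w = ((χ g : ℤ) : E) * w)
    {p : ℕ} {P : Pr L} (hun : P.valuation L (p : L) = WithZero.exp (-1 : ℤ))
    (hP : ∀ O : ValuationSubring E, OverV (P.under (𝓞 k)) O → ∀ τ : L.fixingSubgroup,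
      Inert O (τ : E ≃ₐ[k] E).toRingEquiv → χ τ = 1) : Ev P p z := by
  have hcz : CharZero E := charZero_of_injective_algebraMap (algebraMap k E).injective
  apply Pool.Agent.HG.ev_of_not_isOdd hz hun
  intro hodd
  obtain ⟨O, F, p', f', D⟩ := Pool.Agent.L.stmtFR L E P
  obtain ⟨τ, hτ, hτd⟩ := D.odd z hodd
  have hOv : OverV (P.under (𝓞 k)) O := by
    intro x
    have h1 := D.above (algebraMap k L x)
    rw [← IsScalarTower.algebraMap_apply k L E] at h1
    rw [h1]
    exact Pool.Agent.HG.val_le_over rfl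
  let τ' : L.fixingSubgroup := (IntermediateField.fixingSubgroupEquiv L).symm τ
  have hτ' : ∀ x : E, (τ' : E ≃ₐ[k] E) x = τ x := fun x => rfl
  have h1 : χ τ' = 1 := hP O hOv τ' ⟨hτ.stab, hτ.res⟩
  have h2 := hg τ'
  rw [h1, hτ', hτd w hw] at h2
  have h3 : (2 : E) * w = 0 := by
    have h4 : -w = w := by simpa using h2
    linear_combination (-1 : E) * h4
  exact (mul_ne_zero two_ne_zero hw0) h3

end

end HFaux

open HFaux in
/-- **Block HF.** -/
theorem hf_of (hSel : StmtSel) : StmtHF := by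
  intro k E _ _ _ _ _ _ L hL Bad hBad
  have hcz : CharZero E := charZero_of_injective_algebraMap (algebraMap k E).injective
  have hNL : NumberField L := NumberField.of_module_finite k L
  obtain ⟨M₁, hM₁, hun⟩ := Pool.Agent.HG.exists_unram L
  -- the norms of the bad primes
  let M₂ : ℕ := ∏ v ∈ hBad.toFinset, nm v
  have hM₂ : M₂ ≠ 0 := Finset.prod_ne_zero_iff.2 fun v _ => (Pool.Agent.HG.nm_pos v).ne'
  have hM₂' : ∀ v ∈ Bad, ∀ p : ℕ, p.Prime → (p : 𝓞 k) ∈ v.asIdeal → p ∣ M₂ := by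
    intro v hv p hp hpv
    obtain ⟨f, hf, hnm⟩ := Pool.Agent.HG.nm_pow v hp hpv
    have h1 : p ∣ nm v := by
      rw [hnm]
      exact dvd_pow_self p (Nat.pos_of_ne_zero hf).ne'
    exact h1.trans (Finset.dvd_prod_of_mem nm (hBad.mem_toFinset.2 hv))
  obtain ⟨F, hF, hFz⟩ := hSel k L (⊤ : IntermediateField k L) (M₁ * M₂) (mul_ne_zero hM₁ hM₂)
  refine (Set.Finite.biUnion F.finite_toSet (t := fun e : L =>
    {χ : L.fixingSubgroup →* ℤˣ | ∃ w : E, w ≠ 0 ∧ w ^ 2 = (e : E) ∧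
      ∀ g : L.fixingSubgroup, (g : E ≃ₐ[k] E) w = ((χ g : ℤ) : E) * w}) ?_).subset ?_
  · intro e _
    apply Set.Subsingleton.finite
    rintro χ ⟨w, hw0, hw, h⟩ χ' ⟨w', -, hw', h'⟩
    exact unique_char L hw0 hw hw' h h'
  · rintro χ ⟨⟨L', hL'f, hL'⟩, hχ⟩
    obtain ⟨z, w, hz0, hw0, hw, hg⟩ := exists_sqrt L χ L' hL'
    obtain ⟨e, he, d, -, hed⟩ := hFz z trivial hz0 fun p P hp hpM hpP => by
      refine ev_of_unram L χ hw0 hz0 hw hg (hun p hp (fun h => hpM (h.mul_right _)) P hpP) ?_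
      refine hχ _ fun hbad => hpM ?_
      refine (hM₂' _ hbad p hp ?_).mul_left _
      change algebraMap (𝓞 k) (𝓞 L) (p : 𝓞 k) ∈ P.asIdeal
      rw [map_natCast]
      exact hpP
    have hd0 : d ≠ 0 := by
      rintro rfl
      rw [zero_pow two_ne_zero, mul_zero] at hed
      exact hz0 hed
    have hd0' : (d : E) ≠ 0 := fun h => hd0 (Subtype.ext h)
    refine Set.mem_biUnion (x := e) he ⟨w * (d : E)⁻¹, mul_ne_zero hw0 (inv_ne_zero hd0'), ?_, ?_⟩
    · rw [mul_pow, hw, hed, IntermediateField.coe_mul, IntermediateField.coe_pow, mul_assoc,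
        ← mul_pow, mul_inv_cancel₀ hd0', one_pow, mul_one]
    · intro g
      have h1 : (g : E ≃ₐ[k] E) (d : E) = d := g.2 d
      rw [map_mul, map_inv₀, h1, hg g]
      ring

/-- **Block HF.** -/
theorem hf : StmtHF := hf_of Pool.Agent.HG.sel

end Pool.Agent.M
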