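import Pool.Agent.Helper13.M.Defs
import Pool.Agent.SC.CoverLevels
import Pool.Agent.Helper17.FF.PicDiv

/-!
# Project M, block Z: square roots of functions with odd order exactly at two branch points
-/

set_option autoImplicit false

namespace Pool.Agent.M

open VC IntermediateField NumberField IsDedekindDomain Pool.Agent.SC Pool.Agent.L

namespace Zaux

section

variable {E U : Type} [Field E] [IsAlgClosed E] [Field U] [Algebra E U]
  {L M : IntermediateField E U}

/-- the image in `M` of an element of `L ≤ M` -/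
theorem ord_zero_of_mem (hM : IsFunctionField E M) (Q : Place E M) {x : M} (hx0 : x ≠ 0)
    (h1 : x ∈ Q.ring) (h2 : x⁻¹ ∈ Q.ring) : ord Q.ring x = 0 := by
  have h3 := (FF.ord_nonneg_iff hM Q hx0).2 h1
  have h4 := (FF.ord_nonneg_iff hM Q (inv_ne_zero hx0)).2 h2
  rw [FF.ord_inv hM Q hx0] at h4
  omega

/-- Below an arbitrary place `Q` of `M` an even order stays even. -/
theorem even_ord (hLM : L ≤ M) (hL : IsFunctionField E L) (hM : IsFunctionField E M)
    (Q : Place E M) {g : L} (hg0 : g ≠ 0)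
    (h : ∀ P : Place E L, P.ring = Q.ring.comap (algebraMap L U |>.codRestrict M.toSubfield
      fun x => hLM x.2) → (2 : ℤ) ∣ ord P.ring g) :
    (2 : ℤ) ∣ ord Q.ring (⟨g, hLM g.2⟩ : M) := by
  set i : L →+* M := (algebraMap L U).codRestrict M.toSubfield fun x => hLM x.2 with hi
  have hi0 : ∀ {x : L}, x ≠ 0 → i x ≠ 0 := fun hx => (_root_.map_ne_zero i).2 hx
  change (2 : ℤ) ∣ ord Q.ring (i g)
  by_cases htop : Q.ring.comap i = ⊤
  · have hmem : ∀ x : L, i x ∈ Q.ring := by
      intro x
      have : x ∈ Q.ring.comap i := by rw [htop]; trivial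
      exact this
    rw [ord_zero_of_mem hM Q (hi0 hg0) (hmem g) (by rw [← map_inv₀]; exact hmem _)]
    exact dvd_zero _
  · let P : Place E L :=
      { ring := Q.ring.comap i
        algebraMap_mem := fun c => Q.algebraMap_mem c
        ne_top := htop }
    obtain ⟨m, hm⟩ := h P rfl
    obtain ⟨π, hπ0, hπ⟩ := FF.exists_ord_eq hL P m
    have hx0 : g / π ^ 2 ≠ 0 := div_ne_zero hg0 (pow_ne_zero 2 hπ0)
    have h1 : ord P.ring (g / π ^ 2) = 0 := by
      rw [FF.ord_div hL P hg0 (pow_ne_zero 2 hπ0), FF.ord_pow hL P hπ0, hπ, hm]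
      push_cast
      ring
    have h2 : g / π ^ 2 ∈ P.ring := (FF.ord_nonneg_iff hL P hx0).1 h1.ge
    have h3 : (g / π ^ 2)⁻¹ ∈ P.ring := (FF.ord_nonneg_iff hL P (inv_ne_zero hx0)).1 (by
      rw [FF.ord_inv hL P hx0, h1]; simp)
    have h4 : ord Q.ring (i (g / π ^ 2)) = 0 :=
      ord_zero_of_mem hM Q (hi0 hx0) h2 (by rw [← map_inv₀]; exact h3)
    rw [map_div₀, map_pow, FF.ord_div hM Q (hi0 hg0) (pow_ne_zero 2 (hi0 hπ0)),
      FF.ord_pow hM Q (hi0 hπ0)] at h4
    exact ⟨ord Q.ring (i π), by push_cast at h4; linarith⟩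

end

end Zaux

open Zaux in
/-- **Block Z.** -/
theorem z : StmtZ := by
  intro k K0 E U _ _ _ _ _ _ _ _ _ _ _ _ h r G b b' hb hb' hbb
  have hcl := G.clE
  have hck : CharZero E := charZero_of_injective_algebraMap (algebraMap k E).injective
  have hL := G.ff
  have hM := G.cover.ff
  -- a function with odd order exactly at `b` and `b'`
  obtain ⟨D', c, hc0, hc⟩ := FF.picDiv hL 2 two_pos
    (Finsupp.single b 1 - Finsupp.single b' 1) (by
      classical
      rw [Finsupp.sum_sub_index (fun _ _ _ => rfl), Finsupp.sum_single_index rfl,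
        Finsupp.sum_single_index rfl, sub_self])
  have hodd : ∀ P : Place E (L0 E K0 (U := U)), ¬ (2 : ℤ) ∣ ord P.ring c ↔ P = b ∨ P = b' := by
    intro P
    have h1 := hc P
    classical
    rw [Finsupp.sub_apply, Finsupp.single_apply, Finsupp.single_apply] at h1
    by_cases h2 : b = P
    · have h3 : ¬ b' = P := fun h => hbb (h2.trans h.symm)
      rw [if_pos h2, if_neg h3] at h1
      simp only [h2, true_or, iff_true]
      omega
    · by_cases h3 : b' = P
      · rw [if_neg h2, if_pos h3] at h1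
        simp only [h3, or_true, iff_true]
        omega
      · rw [if_neg h2, if_neg h3] at h1
        have h4 : ¬ (P = b ∨ P = b') := by
          rintro (h | h)
          · exact h2 h.symm
          · exact h3 h.symm
        simp only [h4, iff_false, not_not]
        omega
  -- it becomes a square in `U`
  have hLM : L0 E K0 (U := U) ≤ MM E K0 r :=
    IntermediateField.adjoin.mono _ _ _ Set.subset_union_left
  have hrM : r ∈ MM E K0 r := IntermediateField.subset_adjoin _ _ (Set.mem_union_right _ rfl)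
  have hr0 : r ≠ 0 := by
    rintro rfl
    exact G.rnot (zero_mem _)
  have hh0 : (inL0 h : L0 E K0 (U := U)) ≠ 0 := by
    intro h0
    have h1 : algebraMap K0 U h = 0 := congrArg Subtype.val h0
    rw [← G.rsq] at h1
    exact pow_ne_zero 2 hr0 h1
  have hcM : (⟨c, hLM c.2⟩ : MM E K0 r) ≠ 0 := by
    intro h0
    have h1 : ((⟨c, hLM c.2⟩ : MM E K0 r) : U) = ((0 : MM E K0 r) : U) := by rw [h0]
    exact hc0 (Subtype.ext h1)
  obtain ⟨w, hw⟩ := G.cover.exists_root hM hcM two_pos (fun Q => by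
    by_cases hev : ∀ P : Place E (L0 E K0 (U := U)), P.ring = Q.ring.comap
        (algebraMap (L0 E K0 (U := U)) U |>.codRestrict (MM E K0 r).toSubfield
          fun x => hLM x.2) → (2 : ℤ) ∣ ord P.ring c
    · exact even_ord hLM hL hM Q hc0 hev
    · push Not at hev
      obtain ⟨P, hP, hP2⟩ := hev
      have hPb : ¬ (2 : ℤ) ∣ ord P.ring (inL0 h) := by
        rcases (hodd P).1 hP2 with h1 | h1
        · rw [h1]; exact hb
        · rw [h1]; exact hb'
      have h1 : (2 : ℤ) ∣ ord Q.ring (⟨(c * inL0 h : L0 E K0 (U := U)), hLM (c * inL0 h).2⟩ :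
          MM E K0 r) := by
        refine even_ord hLM hL hM Q (mul_ne_zero hc0 hh0) fun P' hP' => ?_
        have h2 : P' = P := Place.ext (hP'.trans hP.symm)
        rw [h2, FF.ord_mul hL P hc0 hh0]
        omega
      have h2 : (⟨(c * inL0 h : L0 E K0 (U := U)), hLM (c * inL0 h).2⟩ : MM E K0 r) =
          ⟨c, hLM c.2⟩ * (⟨r, hrM⟩ : MM E K0 r) ^ 2 := by
        apply Subtype.ext
        change (c : U) * algebraMap K0 U h = c * r ^ 2
        rw [G.rsq]
      have hrM0 : (⟨r, hrM⟩ : MM E K0 r) ≠ 0 := fun h0 => hr0 (congrArg Subtype.val h0)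
      rw [h2, FF.ord_mul hM Q hcM (pow_ne_zero 2 hrM0), FF.ord_pow hM Q hrM0] at h1
      push_cast at h1 ⊢
      omega)
  refine ⟨w, ?_, c, hw.symm, hodd⟩
  rintro rfl
  apply hcM
  apply Subtype.ext
  rw [← hw]
  simp

end Pool.Agent.M
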